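import Pool.Agent.Helper98.GY.Stmts
import Pool.Agent.Helper2.IZ.Frm

/-! FRM: local frames of a finite dimensional invariant space, general compact base
(MP_7a8f48_an, sheet GY). -/

open Finset Filter MeasureTheory Topology
open scoped ComplexConjugate InnerProductSpace

namespace Pool.Agent.Helper49.GY

open Pool.Agent.Helper16.AZ (T E Op mm)
open Pool.Agent.Helper40.IZ (cf Fr HO)
open Pool.Agent.Helper98.GY
open Pool.Agent.Helper2.IZ (cf_cont HO_cont)

theorem FRM : ST_FRM := by
  intro X Y _ _ _ _ π S τ M _ _ _ _ μ _ Θ d e hM he y₁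
  obtain ⟨hne, hinj, htr, -, -, hcpt⟩ := hM
  obtain ⟨hort, hact⟩ := he
  obtain ⟨θ₁, hθ₁⟩ := hne y₁
  have hemb : IsClosedEmbedding (θ₁ : M → X) :=
    θ₁.continuous.isClosedEmbedding (hinj y₁ θ₁ hθ₁).1
  choose h hh using fun j : Fin d => ContinuousMap.exists_extension hemb (e j)
  have hh' : ∀ j m, h j (θ₁ m) = e j m := fun j m => by
    have := DFunLike.congr_fun (hh j) m
    simpa using this
  have hcf : ∀ j : Fin d, cf μ e (e j : M → ℂ) = EuclideanSpace.single j (1 : ℂ) := by
    intro j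
    ext i
    simp only [cf, hort i j, EuclideanSpace.single_apply]
  have hunit : ∀ θ ∈ Θ y₁, IsUnit (HO μ e h θ) := by
    intro θ hθ
    obtain ⟨k, hk⟩ := htr y₁ θ₁ hθ₁ θ hθ
    obtain ⟨R, hR, hRf⟩ := hact k
    have h1 : HO μ e h θ = R := by
      have h2 : ∀ j, cf μ e (fun m => h j (θ m)) = R (EuclideanSpace.single j (1 : ℂ)) := by
        intro j
        have h3 : (fun m => h j (θ m)) = fun m => e j (k m) := by
          funext m
          rw [hk m, hh']
        rw [h3, hRf (e j), hcf j]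
      ext v i
      unfold HO
      simp only [h2]
      rw [ContinuousLinearMap.sum_apply]
      simp only [ContinuousLinearMap.smulRight_apply]
      have h4 : v = ∑ j, v j • EuclideanSpace.single j (1 : ℂ) := by
        ext i
        simp [Pi.single_apply]
      conv_rhs => rw [h4]
      rw [map_sum]
      simp only [map_smul]
      rfl
    rw [h1]
    exact (Unitary.toUnits ⟨R, hR⟩).isUnit
  set B : Set (Y × C(M, X)) := {p | p.2 ∈ Θ p.1} ∩ {p | ¬ IsUnit (HO μ e h p.2)} with hB
  have hBc : IsCompact B := by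
    refine hcpt.inter_right ?_
    have h1 : IsOpen {p : Y × C(M, X) | IsUnit (HO μ e h p.2)} :=
      Units.isOpen.preimage ((HO_cont μ e h).comp continuous_snd)
    exact isClosed_compl_iff.2 h1
  refine ⟨h, (Prod.fst '' B)ᶜ, ?_, ?_, ?_⟩
  · exact (hBc.image continuous_fst).isClosed.isOpen_compl
  · rintro ⟨⟨y, θ⟩, ⟨h1, h2⟩, h3⟩
    subst h3
    exact h2 (hunit θ h1)
  · intro y hy θ hθ
    by_contra hc
    exact hy ⟨(y, θ), ⟨hθ, hc⟩, rfl⟩

theorem st_FRM : ST_FRM := FRM

end Pool.Agent.Helper49.GY
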